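import Pool.Agent.V11235.SF.Core
import Pool.Agent.V11235.SF.CoreE
import Pool.Agent.V11235.SF.Count
import Pool.Agent.V11235.SE.Der
import Pool.Agent.W52.SecC.D3

/-!
# A power of the logarithm is saved: few fibres with sections

Let `g ∈ ℚ[t]`, `g ≠ 0`, and let `F ∈ ℚ[t][x]` be of degree `m ≥ 3` in `x`.  For rational numbers `t`
and `n ≥ 1` consider the superelliptic curve

  `g(t) yⁿ = F(t, x)`;

all its coefficients vary with `t`.  Suppose that in some number field `L` there is a `θ` such that
`F(θ, x) ∈ L[x]` has degree `m` and is separable, and let `e` be the multiplicity of the root `θ`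
of `g`.

1. Suppose that `F(θ, x)` is irreducible over `L` or, more generally, has a Galois group over `L` with
an element that fixes no root.  Then there is a `δ > 0` such that for all `B ≥ 2` and all but
`O(B² / (log B)^δ)` of the rational numbers `t = a/b` of height `max(|a|, |b|)` at most `B`, and for all
but `O(B / (log B)^δ)` of the integers `t` with `|t| ≤ B`, we have: for all `n ≥ 1` such that some prime
number divides `n` and `m` but not `e`, the curve `g(t) yⁿ = F(t, x)` has no point over `ℚ`, and its
fundamental group has no section, also when any set of closed points of the curve is removed; and for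
all prime numbers `ℓ` which divide `m` but not `e`, already the geometrically pro-`ℓ` fundamental group
of the curve `g(t) y^ℓ = F(t, x)` has no section.

2. Let `ℓ` be a prime number which divides `m` but not `e`, and suppose that `F(θ, x)` is irreducible
over `L` and `m = ℓ^r s` with `r ≥ 1` and `s < ℓ` or, more generally, that its Galois group has an
element of `ℓ`-power order that fixes no root.  Then there is a `δ > 0` such that, with the same bounds
for the numbers of exceptions, all this is true over **all** number fields `K'` whose degree is not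
divisible by `ℓ`, for all `n` divisible by `ℓ` (the exceptional `t` do not depend on `K'`).

So all but `O(B² / (log B)^δ)` of the fibres of height at most `B` satisfy the section conjecture.  In
`MP_e66f84_ag.RationalFibres` and `MP_2f3286_ag.PrimeToEllExtensions` we proved that the exceptional `t`
have density zero in the sense of residue classes, without any rate; the starting `QuadraticTwists`
and `SuperellipticTwists` are also statements on the density of residue classes.  For the existence of
rational points such bounds are known from the work of Serre and of Loughran and Smeets.  For instance, for all but `O(B² / (log B)^δ)` of the rational numbers `t` of height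
at most `B` the curves `t yⁿ = x⁸ + t x + 2`, `n` even, satisfy the section conjecture over all number
fields of odd degree.

The fundamental group is described through valuations.  Let `U` be a smooth geometrically connected
curve over `k` with function field `F`, let `Ω` be an algebraic closure of `F`, and let `F_U` be the
maximal extension of `F` inside `Ω` which is unramified over the closed points of `U`, that is, over
their local rings, which are valuation rings of `F`.  Then `π₁(U) = Gal(F_U/F)`, and the map
`π₁(U) → G_k` is the restriction of automorphisms to the algebraic closure of `k` in `Ω`.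

Proof.  By Chebotarev's theorem (with natural density) a positive proportion of all prime numbers `p`
are norms of primes `v` of `L` with a prescribed Frobenius element, modulo which `F(θ, x)` has no root
(in case 2: no root in the fields with `pⁿ` elements, `ℓ ∤ n`).  Let `r_p` be the residue of `θ` modulo
`v²`.  If `t = a/b`, `p ∤ b` and `a - r_p b` is divisible by `p` but not by `p²`, then the curve has
neither points nor sections by the local theorem for the geometrically pro-`ℓ` fundamental group
(library `Pool.Agent.Y141.PS`, `Pool.Agent.Y157.PS`) over all the fields in question (in case 2 with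
a prime of `K'` over `p` whose ramification index and residue degree are not divisible by `ℓ`).  For
fixed `b`, the number of the `a` for which `p²` divides `a - r_p b` for some `p > log B` of these primes
is `O(B / log B)`, and the number of the `a` which are not congruent to `r_p b` modulo `p` for all of
these primes between `log B` and a small power of `B` which do not divide `b` is estimated by a sieve
(library `sys_fund`) and by Mertens' theorem.
-/

set_option autoImplicit false

open Polynomial NumberField

namespace Pool.Agent.Results.MP_2f3286_ag.FewExceptions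

section definitions

variable (ℓ : ℕ) (k F Ω : Type) [Field k] [Field F] [Field Ω] [Algebra k F] [Algebra F Ω]
  [Algebra k Ω]

/-- The inertia group of the valuation ring `W` of `Ω`, as a subgroup of `Gal(Ω/F)`: the
automorphisms of `Ω` over `F` that map `W` onto itself and act as the identity on its residue
field. -/
noncomputable def inertia (W : ValuationSubring Ω) : Subgroup (Ω ≃ₐ[F] Ω) :=
  (W.inertiaSubgroup F).map (W.decompositionSubgroup F).subtype

/-- `F_U`, for a set `U` of valuation rings of `F`: the elements of `Ω` fixed by the inertia groups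
of all valuation rings `W` of `Ω` with `W ∩ F ∈ U`.  If `Ω` is an algebraic closure of a field `F`
of characteristic zero, this is the maximal extension of `F` in `Ω` unramified over `U`. -/
noncomputable def unramified (U : Set (ValuationSubring F)) : IntermediateField F Ω :=
  ⨅ W : {W : ValuationSubring Ω // W.comap (algebraMap F Ω) ∈ U},
    IntermediateField.fixedField (inertia F Ω W.1)

/-- `k̄ F`, the compositum of `F` and of the algebraic closure of `k` in `Ω`. -/
noncomputable def geomField : IntermediateField F Ω :=
  IntermediateField.adjoin F (algebraicClosure k Ω : Set Ω)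

/-- The algebraic extension `L` of `K` in `Ω` is unramified at all valuation rings of `Ω` that
contain `k`: every nonzero element of `L` has the same valuation as an element of `K`.  (If `K` is
a function field of one variable over the algebraic closure of `k` and `k` has characteristic zero,
then this says that `L/K` is unramified over all points of the smooth projective curve.) -/
def Unramified {k K Ω : Type} [Field k] [Field K] [Field Ω] [Algebra k Ω] [Algebra K Ω]
    (L : IntermediateField K Ω) : Prop :=
  ∀ W : ValuationSubring Ω, (∀ c : k, algebraMap k Ω c ∈ W) → ∀ z ∈ L, z ≠ 0 →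
    ∃ t : K, t ≠ 0 ∧ z / algebraMap K Ω t ∈ W ∧ (z / algebraMap K Ω t)⁻¹ ∈ W

/-- `L/K` is a finite Galois extension whose degree is a power of `ℓ`. -/
def FiniteProEll (ℓ : ℕ) {K Ω : Type} [Field K] [Field Ω] [Algebra K Ω]
    (L : IntermediateField K Ω) : Prop :=
  FiniteDimensional K L ∧ IsGalois K L ∧ ∃ m : ℕ, Module.finrank K L = ℓ ^ m

/-- The maximal unramified pro-`ℓ` extension of `K` in `Ω`: the compositum of the finite Galois
extensions of `K` whose degree is a power of `ℓ` and which are unramified. -/
noncomputable def maxProEll (ℓ : ℕ) (k K Ω : Type) [Field k] [Field K] [Field Ω] [Algebra k Ω]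
    [Algebra K Ω] : IntermediateField K Ω :=
  ⨆ L : {L : IntermediateField K Ω // FiniteProEll ℓ L ∧ Unramified (k := k) L}, L.1

/-- `M`, the maximal unramified pro-`ℓ` extension of `k̄ F` in `Ω`, as an extension of `F`. -/
noncomputable def proEllField : IntermediateField F Ω :=
  (maxProEll ℓ k (geomField k F Ω) Ω).restrictScalars F

/-- The map `τ : M → M` acts as `σ : K → K` on the elements that the fields `K` and `M` have in
common when they are regarded as subfields of `Ω` through `i` and `j`. -/
def ActsAs {K M Ω : Type} [Field K] [Field M] [Field Ω] (i : K →+* Ω) (j : M →+* Ω) (σ : K → K)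
    (τ : M → M) : Prop :=
  ∀ c z, j z = i c → j (τ z) = i (σ c)

/-- Let `k ⊆ K ⊆ Ω` and `F ⊆ N ⊆ Ω` be fields.  A splitting of `Gal(N/F) → Gal(K/k)`: a continuous
homomorphism `s` from `Gal(K/k)` to `Gal(N/F)` such that `s(σ)` acts as `σ` on the elements of
`K ∩ N`. -/
structure Splitting (K N : Type) [Field K] [Field N] [Algebra k K] [Algebra F N] [Algebra K Ω]
    [Algebra N Ω] where
  /-- the homomorphism `Gal(K/k) → Gal(N/F)` -/
  toHom : (K ≃ₐ[k] K) →* (N ≃ₐ[F] N)
  cont : Continuous toHom
  compat : ∀ σ : K ≃ₐ[k] K, ActsAs (algebraMap K Ω) (algebraMap N Ω) σ (toHom σ)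

/-- There are no sections of `Gal(N/F) → G_k`, where `G_k = Gal(k̄/k)` and `k̄` is the algebraic
closure of `k` in `Ω`.  For `N = F_U` these are the sections of `π₁(U) → G_k`. -/
def NoSplitting (N : IntermediateField F Ω) : Prop :=
  IsEmpty (Splitting k F Ω (algebraicClosure k Ω) N)

end definitions

section curves

variable {k : Type} [Field k]

/-- The smooth projective curve with the affine equation `a yⁿ = f(x)` has no point over `k`:
neither in the affine part nor at infinity. -/
def NoPoint (n : ℕ) (a : k) (f : k[X]) : Prop :=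
  (¬ ∃ x y : k, a * y ^ n = f.eval x) ∧
    ¬ ∃ r : k, a * r ^ Nat.gcd n f.natDegree = f.leadingCoeff

/-- Let `F` be any field over `k` that contains a point `(x, y)` of the curve `a yⁿ = f(x)`, for
instance the function field of the curve, and let `Ω` be an algebraic closure of `F`.  Then for
every set `U` of valuation rings of `F` over `k` there is no section of `π₁(U) → G_k`.  If `F` is the
function field of the curve, such `U` are given by the smooth projective curve and by all its open
subcurves. -/
def NoSection (n : ℕ) (a : k) (f : k[X]) : Prop :=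
  ∀ (F Ω : Type) [Field F] [Field Ω] [Algebra k F] [Algebra F Ω] [Algebra k Ω]
    [IsScalarTower k F Ω] [IsAlgClosure F Ω] (x y : F) (U : Set (ValuationSubring F)),
    algebraMap k F a * y ^ n = aeval x f → (∀ O ∈ U, ∀ c : k, algebraMap k F c ∈ O) →
      NoSplitting k F Ω (unramified F Ω U)

/-- Let `F = k(x, y)` be the function field of the curve `a y^ℓ = f(x)`, let `Ω` be an algebraic
closure of `F`, and let `M` be the maximal unramified pro-`ℓ` extension of `k̄ F`.  For all
extensions `N ⊇ M` of `F` in `Ω`, in particular for `N = M`, there is no section of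
`Gal(N/F) → G_k`. -/
def NoProEllSection (ℓ : ℕ) (a : k) (f : k[X]) : Prop :=
  ∀ (F Ω : Type) [Field F] [Field Ω] [Algebra k F] [Algebra F Ω] [Algebra k Ω]
    [IsScalarTower k F Ω] [IsAlgClosure F Ω] (x y : F), Transcendental k x →
    algebraMap k F a * y ^ ℓ = aeval x f →
    IntermediateField.adjoin k {x, y} = (⊤ : IntermediateField k F) →
    ∀ N : IntermediateField F Ω, proEllField ℓ k F Ω ≤ N → NoSplitting k F Ω N

/-- Some element of the Galois group of `k` fixes no root of `f`. -/
def HasDerangement (f : k[X]) : Prop :=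
  ∃ σ : AlgebraicClosure k ≃ₐ[k] AlgebraicClosure k,
    ∀ θ : AlgebraicClosure k, aeval θ f = 0 → σ θ ≠ θ

/-- No power `σⁿ`, `ℓ ∤ n`, of a certain element `σ` of the Galois group of `k` fixes a root of `f`.
(Equivalently, the Galois group of `f` has an element of `ℓ`-power order that fixes no root.) -/
def HasEllDerangement (ℓ : ℕ) (f : k[X]) : Prop :=
  ∃ σ : AlgebraicClosure k ≃ₐ[k] AlgebraicClosure k, ∀ n : ℕ, ¬ ℓ ∣ n →
    ∀ θ : AlgebraicClosure k, aeval θ f = 0 → (σ ^ n) θ ≠ θ

end curves

/-- The value `q(θ)` of a polynomial `q ∈ k[t]` at an element `θ` of an extension `L` of `k`. -/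
noncomputable def value {k L : Type} [Field k] [Field L] [Algebra k L] (θ : L) : k[X] →+* L :=
  eval₂RingHom (algebraMap k L) θ

/-- The multiplicity of the root `θ ∈ L` of `g ∈ k[t]`. -/
noncomputable def mult {k L : Type} [Field k] [Field L] [Algebra k L] (g : k[X]) (θ : L) : ℕ :=
  (g.map (algebraMap k L)).rootMultiplicity θ

/-- The polynomial `F(t, x) ∈ k[x]`. -/
noncomputable def fibre {k : Type} [Field k] (F : k[X][X]) (t : k) : k[X] := F.map (evalRingHom t)

/-- Some prime number divides `n` and `m` but not `e`. -/
def Admissible (n m e : ℕ) : Prop := ∃ ℓ : ℕ, ℓ.Prime ∧ ℓ ∣ n ∧ ℓ ∣ m ∧ ¬ ℓ ∣ e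

/-- Let `a ∈ k` and `f ∈ k[x]`.  For all finite extensions `k'` of `k` whose degree is not divisible by
`ℓ`: for all `n ≥ 1` divisible by `ℓ` the curve `a yⁿ = f(x)` over `k'` has neither points nor sections,
and the geometrically pro-`ℓ` fundamental group of the curve `a y^ℓ = f(x)` over `k'` has no
section. -/
def NothingOver {k : Type} [Field k] (ℓ : ℕ) (a : k) (f : k[X]) : Prop :=
  ∀ (k' : Type) [Field k'] [Algebra k k'] [FiniteDimensional k k'], ¬ ℓ ∣ Module.finrank k k' →
    (∀ n : ℕ, 0 < n → ℓ ∣ n → NoPoint n (algebraMap k k' a) (f.map (algebraMap k k')) ∧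
      NoSection n (algebraMap k k' a) (f.map (algebraMap k k'))) ∧
    NoProEllSection ℓ (algebraMap k k' a) (f.map (algebraMap k k'))

/-- The rational numbers `t` that do not have the following property: `F(t, x)` has the same degree
`m` as `F`; for all `n ≥ 1` such that some prime number divides `n` and `m` but not `e` the curve
`g(t) yⁿ = F(t, x)` over `ℚ` has neither points nor sections; and for all prime numbers `ℓ` which
divide `m` but not `e` the geometrically pro-`ℓ` fundamental group of the curve `g(t) y^ℓ = F(t, x)`
has no section. -/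
def Exceptional (g : ℚ[X]) (F : ℚ[X][X]) (e : ℕ) : Set ℚ :=
  {t | ¬ ((fibre F t).natDegree = F.natDegree ∧
    (∀ n : ℕ, 0 < n → Admissible n F.natDegree e →
      NoPoint n (g.eval t) (fibre F t) ∧ NoSection n (g.eval t) (fibre F t)) ∧
    ∀ ℓ : ℕ, ℓ.Prime → ℓ ∣ F.natDegree → ¬ ℓ ∣ e → NoProEllSection ℓ (g.eval t) (fibre F t))}

/-- The rational numbers `t` that do not have the following property: `F(t, x)` has the same degree
as `F`, and over all number fields `K'` whose degree is not divisible by `ℓ` the curves
`g(t) yⁿ = F(t, x)`, `ℓ ∣ n`, have neither points nor sections, and the geometrically pro-`ℓ`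
fundamental group of the curve `g(t) y^ℓ = F(t, x)` has no section. -/
def ExceptionalOver (ℓ : ℕ) (g : ℚ[X]) (F : ℚ[X][X]) : Set ℚ :=
  {t | ¬ ((fibre F t).natDegree = F.natDegree ∧ NothingOver ℓ (g.eval t) (fibre F t))}

/-- There are `δ > 0` and `C` such that for all `B ≥ 2` at most `C B² / (log B)^δ` rational numbers
`a/b` (in lowest terms) in `E` have height `max(|a|, |b|)` at most `B`, and at most `C B / (log B)^δ`
integers in `E` have absolute value at most `B`. -/
def Few (E : Set ℚ) : Prop :=
  ∃ δ C : ℝ, 0 < δ ∧ ∀ B : ℕ, 2 ≤ B →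
    (Set.ncard {t : ℚ | t ∈ E ∧ |t.num| ≤ B ∧ t.den ≤ B} : ℝ) ≤ C * ((B : ℝ) ^ 2 / Real.log B ^ δ) ∧
    (Set.ncard {n : ℤ | (n : ℚ) ∈ E ∧ |n| ≤ B} : ℝ) ≤ C * (B / Real.log B ^ δ)

lemma iSup_congr_prop {α : Type} [CompleteLattice α] {P Q : α → Prop} (h : ∀ L, P L ↔ Q L) :
    (⨆ L : {L // P L}, L.1) = ⨆ L : {L // Q L}, L.1 := by
  have h1 : P = Q := funext fun L => propext (h L)
  subst h1
  rfl

lemma proEll_eq (ℓ : ℕ) (k F Ω : Type) [Field k] [Field F] [Field Ω] [Algebra k F] [Algebra F Ω]
    [Algebra k Ω] : proEllField ℓ k F Ω = Pool.Agent.Y157.PS.geomPro ℓ k F Ω := by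
  unfold proEllField Pool.Agent.Y157.PS.geomPro maxProEll Pool.Agent.Y157.PS.maxPro
  congr 1
  refine iSup_congr_prop fun L => ?_
  constructor
  · rintro ⟨⟨h1, h2, h3⟩, h4⟩
    refine ⟨⟨h1, h2, h3⟩, fun W hW z hz hz0 => ?_⟩
    obtain ⟨t, ht, h5, h6⟩ := h4 W hW z hz hz0
    exact ⟨t, ht, div_ne_zero hz0 ((_root_.map_ne_zero _).2 ht), h5, h6⟩
  · rintro ⟨⟨h1, h2, h3⟩, h4⟩
    refine ⟨⟨h1, h2, h3⟩, fun W hW z hz hz0 => ?_⟩
    obtain ⟨t, ht, -, h5, h6⟩ := h4 W hW z hz hz0
    exact ⟨t, ht, h5, h6⟩

lemma of_fine {k : Type} [Field k] (l : ℕ) (a : k) (f : k[X])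
    (h : Pool.Agent.Y157.PS.FineP l a f) (n : ℕ) (hn : l ∣ n) (hd : l ∣ f.natDegree) :
    NoPoint n a f ∧ NoSection n a f := by
  obtain ⟨-, h1, h2, h3⟩ := h
  obtain ⟨n', rfl⟩ := hn
  refine ⟨⟨?_, ?_⟩, ?_⟩
  · rintro ⟨x, y, hxy⟩
    apply h2 x (y ^ n')
    rw [← hxy, ← pow_mul, mul_comm n' l]
  · rintro ⟨r, hr⟩
    obtain ⟨e, he⟩ := Nat.dvd_gcd (Dvd.intro n' rfl : l ∣ l * n') hd
    apply h3 (r ^ e)
    rw [← hr, ← pow_mul, mul_comm e l, he]
  · intro F Ω _ _ _ _ _ _ _ x y U hxy hU
    have hcl : IsAlgClosed Ω := IsAlgClosure.isAlgClosed F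
    have halg : Algebra.IsAlgebraic F Ω := IsAlgClosure.isAlgebraic
    have h4 := h1 F Ω U hU x (y ^ n') (by rw [← hxy, ← pow_mul, mul_comm n' l])
    exact ⟨fun s => h4.false ⟨s.toHom, s.cont, s.compat⟩⟩

lemma noProEll_of_fine {k : Type} [Field k] (ℓ : ℕ) (a : k) (f : k[X])
    (h : Pool.Agent.Y157.PS.FineP ℓ a f) : NoProEllSection ℓ a f := by
  intro F' Ω _ _ _ _ _ _ _ x y hx hxy hF N hN
  have hcl : IsAlgClosed Ω := IsAlgClosure.isAlgClosed F'
  have halg : Algebra.IsAlgebraic F' Ω := IsAlgClosure.isAlgebraic
  rw [proEll_eq] at hN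
  exact ⟨fun s => h.1 F' Ω x y hx hxy hF N hN s.toHom s.cont s.compat⟩

open Pool.Agent.V11235.SD Pool.Agent.V11235.SF in
lemma few_of (S : Set ℕ) (hS : ∀ p ∈ S, p.Prime) (hD : Pool.Agent.V11235.SF.Dense S) (E : Set ℚ)
    (h : ∀ p ∈ S, ∃ Θ : ZMod (p ^ 2), ∀ t ∈ E,
      ¬ Good p Θ (t.num : ZMod (p ^ 2)) ((t.den : ℤ) : ZMod (p ^ 2))) : Few E := by
  classical
  obtain ⟨η, C, hη, -, hcount⟩ := rat_count S hS hD
  refine ⟨η, C, hη, fun B hB => ?_⟩
  choose Θ hΘ using h
  refine hcount (fun p => if hp : p ∈ S then Θ p hp else 0) E ?_ B hB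
  intro p hp t ht
  rw [dif_pos hp]
  exact hΘ p hp t ht

/-- Let `g ∈ ℚ[t]`, `g ≠ 0`, let `F ∈ ℚ[t][x]` be of degree `m ≥ 3` in `x`, and let `θ` be an element of a
number field `L` such that `F(θ, x) ∈ L[x]` has degree `m` and is separable; let `e` be the multiplicity
of the root `θ` of `g`.

1. Suppose that `F(θ, x)` is irreducible over `L` or has a Galois group over `L` with an element that
fixes no root.  Then there is a `δ > 0` such that all but `O(B² / (log B)^δ)` of the rational numbers `t`
of height at most `B`, and all but `O(B / (log B)^δ)` of the integers `t` with `|t| ≤ B`, are such that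
`F(t, x)` has degree `m` and: for all `n ≥ 1` such that some prime number divides `n` and `m` but not `e`,
the smooth projective curve with the affine equation `g(t) yⁿ = F(t, x)` has no point over `ℚ`, and the
fundamental groups of its open subcurves and of all smooth curves over `ℚ` that dominate it have no
sections; and for all prime numbers `ℓ` that divide `m` but not `e` the geometrically pro-`ℓ` fundamental
group of `g(t) y^ℓ = F(t, x)` has no section.

2. Let `ℓ` be a prime number that divides `m` but not `e`, and suppose that `F(θ, x)` is irreducible over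
`L` and `m = ℓ^r s` with `r ≥ 1` and `s < ℓ`, or that its Galois group has an element of `ℓ`-power order
that fixes no root.  Then the same bounds (for some `δ > 0`) hold for the number of `t` for which there
is a number field `K'` whose degree is not divisible by `ℓ`, such that over `K'` one of the curves
`g(t) yⁿ = F(t, x)`, `ℓ ∣ n`, has a point or a section, or the geometrically pro-`ℓ` fundamental group of
`g(t) y^ℓ = F(t, x)` has a section, or `F(t, x)` does not have degree `m`. -/
theorem result (g : ℚ[X]) (hg : g ≠ 0) (F : ℚ[X][X]) (h3 : 3 ≤ F.natDegree) (L : Type) [Field L]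
    [Algebra ℚ L] [FiniteDimensional ℚ L] (θ : L) (hdeg : value θ F.leadingCoeff ≠ 0)
    (hsep : (F.map (value θ)).Separable) :
    ((Irreducible (F.map (value θ)) ∨ HasDerangement (F.map (value θ))) →
      Few (Exceptional g F (mult g θ))) ∧
    ∀ ℓ : ℕ, ℓ.Prime → ℓ ∣ F.natDegree → ¬ ℓ ∣ mult g θ →
      ((Irreducible (F.map (value θ)) ∧ ∃ r s : ℕ, 0 < r ∧ s < ℓ ∧ F.natDegree = ℓ ^ r * s) ∨
        HasEllDerangement ℓ (F.map (value θ))) →
      Few (ExceptionalOver ℓ g F) := by
  have hczL : CharZero L := charZero_of_injective_algebraMap (algebraMap ℚ L).injective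
  have hd : (F.map (value θ)).natDegree = F.natDegree :=
    natDegree_map_of_leadingCoeff_ne_zero _ hdeg
  constructor
  · intro h
    have hσ : HasDerangement (F.map (value θ)) := by
      rcases h with h1 | h1
      · exact Pool.Agent.W52.SecC.D3.partD3 L _ h1 (by omega)
      · exact h1
    obtain ⟨S, hSp, hSd, hSv⟩ := Pool.Agent.V11235.SF.core_dense (R := ℤ) g F h3 θ hg hdeg hsep hσ
    refine few_of S hSp hSd _ fun p hp => ?_
    obtain ⟨χ, Θ, hχ⟩ := hSv p hp
    refine ⟨Θ, fun t ht hgood => ht ?_⟩
    have h1 := hχ t.num t.den (by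
      rw [eq_intCast χ, eq_intCast χ]
      exact hgood)
    rw [eq_intCast (algebraMap ℤ ℚ), eq_intCast (algebraMap ℤ ℚ), Int.cast_natCast,
      Rat.num_div_den] at h1
    obtain ⟨h2, hfine⟩ := h1
    refine ⟨h2, fun n hn hadm => ?_, fun ℓ hℓ hℓd hℓe => ?_⟩
    · obtain ⟨l, hl, hln, hld, hle⟩ := hadm
      exact of_fine l _ _ (hfine l hl hld hle) n hln (by
        change l ∣ (F.map (evalRingHom t)).natDegree
        rw [h2]
        exact hld)
    · exact noProEll_of_fine ℓ _ _ (hfine ℓ hℓ hℓd hℓe)
  · intro ℓ hℓ hm he h
    have hσ : HasEllDerangement ℓ (F.map (value θ)) := by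
      rcases h with ⟨h1, r, s, hr, hs, hrs⟩ | h1
      · exact Pool.Agent.V11235.SE.ell_derangement ℓ hℓ _ h1 r s hr hs (by rw [hd, hrs])
      · exact h1
    obtain ⟨S, hSp, hSd, hSv⟩ := Pool.Agent.V11235.SF.core_ell_dense (K := ℚ) ℓ hℓ g F h3 θ hg hdeg
      hsep hσ hm he
    refine few_of S hSp hSd _ fun p hp => ?_
    obtain ⟨χ, Θ, hχ⟩ := hSv p hp
    refine ⟨Θ, fun t ht hgood => ht ?_⟩
    have h1 := hχ ((t.num : ℤ) : 𝓞 ℚ) (((t.den : ℤ) : ℤ) : 𝓞 ℚ) (by
      rw [map_intCast χ, map_intCast χ]
      exact hgood)
    rw [map_intCast (algebraMap (𝓞 ℚ) ℚ), map_intCast (algebraMap (𝓞 ℚ) ℚ), Int.cast_natCast,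
      Rat.num_div_den] at h1
    obtain ⟨h2, hfine⟩ := h1
    refine ⟨h2, fun K' _ _ _ hK' => ⟨fun n hn hln => ?_, ?_⟩⟩
    · exact of_fine ℓ _ _ (hfine K' hK') n hln (by
        rw [natDegree_map_eq_of_injective (algebraMap ℚ K').injective]
        change ℓ ∣ (F.map (evalRingHom t)).natDegree
        rw [h2]
        exact hm)
    · exact noProEll_of_fine ℓ _ _ (hfine K' hK')

end Pool.Agent.Results.MP_2f3286_ag.FewExceptions
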