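import Pool.Agent.V11235.SD.Core
import Pool.Agent.V11235.SD.Pr

/-!
# The section conjecture for the fibres over 100% of the prime numbers

Let `k` be a number field or, more generally, any field finitely generated over `ℚ`, that is, the
fraction field of a domain `R` of characteristic zero that is finitely generated as a ring.  Let
`g ∈ k[t]`, `g ≠ 0`, let `F ∈ k[t][x]` be of degree `m ≥ 3` in `x`, and consider the superelliptic
curves

  `g(p) yⁿ = F(p, x)`,  `p = 2, 3, 5, 7, 11, …` a prime number,

over `k`.  Suppose that in some finite extension `L` of `k` there is a `θ ≠ 0` such that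
`F(θ, x) ∈ L[x]` has degree `m`, is separable, and is irreducible over `L` or, more generally, has a
Galois group over `L` with an element that fixes no root.  Let `e` be the multiplicity of the root `θ`
of `g`.

Then for 100% of the prime numbers `p` we have: for all `n ≥ 1` such that some prime number divides `n`
and `m` but not `e` (so for `e = 1` for all `n` which are not coprime to `m`), the curve
`g(p) yⁿ = F(p, x)` has no point over `k`, and its fundamental group has no section, also when any set
of closed points of the curve is removed.  So these curves, and all smooth curves over `k` that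
dominate one of them, satisfy the section conjecture.  Moreover, for all prime numbers `ℓ` which divide
`m` but not `e`, already the geometrically pro-`ℓ` fundamental group of the curve `g(p) y^ℓ = F(p, x)`
has no section.

For instance, for 100% of the prime numbers `p` the curves `(p - 2) yⁿ = x⁶ + p x + p`, `gcd(n, 6) > 1`,
over `ℚ` satisfy the section conjecture (`θ = 2`, Eisenstein's criterion), and so do the curves
`(p² - 3) yⁿ = x⁵ + p x + p`, `5 ∣ n` (`θ = √3`), and, if `gcd(n, deg f) > 1`, the twists
`(p - 1) yⁿ = f(x)` for `f` irreducible over `ℚ` and `(p² + 1) yⁿ = f(x)` for `f` irreducible over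
`ℚ(i)`.

The theorems on 100% of all integral or rational parameters (`QuadraticTwists`, `SuperellipticTwists`,
`FibresOfFamilies`, `MP_e66f84_ag.RationalFibres`) say nothing about the prime numbers, a set of
density zero.  For `θ = 0`, for instance for the twists `p yⁿ = f(x)`, the method only gives the prime
numbers modulo which the polynomial has no root.

The fundamental group is described through valuations.  Let `U` be a smooth geometrically connected
curve over `k` with function field `F`, let `Ω` be an algebraic closure of `F`, and let `F_U` be the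
maximal extension of `F` inside `Ω` which is unramified over the closed points of `U`, that is, over
their local rings, which are valuation rings of `F`.  Then `π₁(U) = Gal(F_U/F)`, and the map
`π₁(U) → G_k` is the restriction of automorphisms to the algebraic closure of `k` in `Ω`.

Proof.  As in `MP_e66f84_ag.RationalFibres` there is a set `S` of prime numbers `q` with divergent sum
of the `1/q` and for each `q ∈ S` a class `Θ` modulo `q²` such that the property holds for all integers
`t` with `t ≡ Θ` modulo `q` and `t ≢ Θ` modulo `q²`.  As `θ ≠ 0` we may assume that the class `Θ` is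
prime to `q`.  So for a product `N` of the squares of sufficiently many elements of `S` the exceptional
prime numbers lie in at most `ε φ(N)` classes prime to `N`.  By the Brun-Titchmarsh inequality
(library) they form at most a proportion `C ε` of all prime numbers.
-/

set_option autoImplicit false

open Polynomial Filter Topology

namespace Pool.Agent.Results.MP_2f3286_ag.PrimeFibres

section definitions

variable (ℓ : ℕ) (k F Ω : Type) [Field k] [Field F] [Field Ω] [Algebra k F] [Algebra F Ω]
  [Algebra k Ω]

/-- The inertia group of the valuation ring `W` of `Ω`, as a subgroup of `Gal(Ω/F)`: the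
automorphisms of `Ω` over `F` that map `W` onto itself and act as the identity on its residue
field. -/
noncomputable def inertia (W : ValuationSubring Ω) : Subgroup (Ω ≃ₐ[F] Ω) :=
  (W.inertiaSubgroup F).map (W.decompositionSubgroup F).subtype

/-- `F_U`, for a set `U` of valuation rings of `F`: the elements of `Ω` fixed by the inertia groups
of all valuation rings `W` of `Ω` with `W ∩ F ∈ U`.  If `Ω` is an algebraic closure of a field `F`
of characteristic zero, this is the maximal extension of `F` in `Ω` unramified over `U`. -/
noncomputable def unramified (U : Set (ValuationSubring F)) : IntermediateField F Ω :=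
  ⨅ W : {W : ValuationSubring Ω // W.comap (algebraMap F Ω) ∈ U},
    IntermediateField.fixedField (inertia F Ω W.1)

/-- `k̄ F`, the compositum of `F` and of the algebraic closure of `k` in `Ω`. -/
noncomputable def geomField : IntermediateField F Ω :=
  IntermediateField.adjoin F (algebraicClosure k Ω : Set Ω)

/-- The algebraic extension `L` of `K` in `Ω` is unramified at all valuation rings of `Ω` that
contain `k`: every nonzero element of `L` has the same valuation as an element of `K`.  (If `K` is
a function field of one variable over the algebraic closure of `k` and `k` has characteristic zero,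
then this says that `L/K` is unramified over all points of the smooth projective curve.) -/
def Unramified {k K Ω : Type} [Field k] [Field K] [Field Ω] [Algebra k Ω] [Algebra K Ω]
    (L : IntermediateField K Ω) : Prop :=
  ∀ W : ValuationSubring Ω, (∀ c : k, algebraMap k Ω c ∈ W) → ∀ z ∈ L, z ≠ 0 →
    ∃ t : K, t ≠ 0 ∧ z / algebraMap K Ω t ∈ W ∧ (z / algebraMap K Ω t)⁻¹ ∈ W

/-- `L/K` is a finite Galois extension whose degree is a power of `ℓ`. -/
def FiniteProEll (ℓ : ℕ) {K Ω : Type} [Field K] [Field Ω] [Algebra K Ω]
    (L : IntermediateField K Ω) : Prop :=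
  FiniteDimensional K L ∧ IsGalois K L ∧ ∃ m : ℕ, Module.finrank K L = ℓ ^ m

/-- The maximal unramified pro-`ℓ` extension of `K` in `Ω`: the compositum of the finite Galois
extensions of `K` whose degree is a power of `ℓ` and which are unramified. -/
noncomputable def maxProEll (ℓ : ℕ) (k K Ω : Type) [Field k] [Field K] [Field Ω] [Algebra k Ω]
    [Algebra K Ω] : IntermediateField K Ω :=
  ⨆ L : {L : IntermediateField K Ω // FiniteProEll ℓ L ∧ Unramified (k := k) L}, L.1

/-- `M`, the maximal unramified pro-`ℓ` extension of `k̄ F` in `Ω`, as an extension of `F`. -/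
noncomputable def proEllField : IntermediateField F Ω :=
  (maxProEll ℓ k (geomField k F Ω) Ω).restrictScalars F

/-- The map `τ : M → M` acts as `σ : K → K` on the elements that the fields `K` and `M` have in
common when they are regarded as subfields of `Ω` through `i` and `j`. -/
def ActsAs {K M Ω : Type} [Field K] [Field M] [Field Ω] (i : K →+* Ω) (j : M →+* Ω) (σ : K → K)
    (τ : M → M) : Prop :=
  ∀ c z, j z = i c → j (τ z) = i (σ c)

/-- Let `k ⊆ K ⊆ Ω` and `F ⊆ N ⊆ Ω` be fields.  A splitting of `Gal(N/F) → Gal(K/k)`: a continuous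
homomorphism `s` from `Gal(K/k)` to `Gal(N/F)` such that `s(σ)` acts as `σ` on the elements of
`K ∩ N`. -/
structure Splitting (K N : Type) [Field K] [Field N] [Algebra k K] [Algebra F N] [Algebra K Ω]
    [Algebra N Ω] where
  /-- the homomorphism `Gal(K/k) → Gal(N/F)` -/
  toHom : (K ≃ₐ[k] K) →* (N ≃ₐ[F] N)
  cont : Continuous toHom
  compat : ∀ σ : K ≃ₐ[k] K, ActsAs (algebraMap K Ω) (algebraMap N Ω) σ (toHom σ)

/-- There are no sections of `Gal(N/F) → G_k`, where `G_k = Gal(k̄/k)` and `k̄` is the algebraic
closure of `k` in `Ω`.  For `N = F_U` these are the sections of `π₁(U) → G_k`. -/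
def NoSplitting (N : IntermediateField F Ω) : Prop :=
  IsEmpty (Splitting k F Ω (algebraicClosure k Ω) N)

end definitions

section curves

variable {k : Type} [Field k]

/-- The smooth projective curve with the affine equation `a yⁿ = f(x)` has no point over `k`:
neither in the affine part nor at infinity. -/
def NoPoint (n : ℕ) (a : k) (f : k[X]) : Prop :=
  (¬ ∃ x y : k, a * y ^ n = f.eval x) ∧
    ¬ ∃ r : k, a * r ^ Nat.gcd n f.natDegree = f.leadingCoeff

/-- Let `F` be any field over `k` that contains a point `(x, y)` of the curve `a yⁿ = f(x)`, for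
instance the function field of the curve, and let `Ω` be an algebraic closure of `F`.  Then for
every set `U` of valuation rings of `F` over `k` there is no section of `π₁(U) → G_k`.  If `F` is the
function field of the curve, such `U` are given by the smooth projective curve and by all its open
subcurves. -/
def NoSection (n : ℕ) (a : k) (f : k[X]) : Prop :=
  ∀ (F Ω : Type) [Field F] [Field Ω] [Algebra k F] [Algebra F Ω] [Algebra k Ω]
    [IsScalarTower k F Ω] [IsAlgClosure F Ω] (x y : F) (U : Set (ValuationSubring F)),
    algebraMap k F a * y ^ n = aeval x f → (∀ O ∈ U, ∀ c : k, algebraMap k F c ∈ O) →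
      NoSplitting k F Ω (unramified F Ω U)

/-- Let `F = k(x, y)` be the function field of the curve `a y^ℓ = f(x)`, let `Ω` be an algebraic
closure of `F`, and let `M` be the maximal unramified pro-`ℓ` extension of `k̄ F`.  For all
extensions `N ⊇ M` of `F` in `Ω`, in particular for `N = M`, there is no section of
`Gal(N/F) → G_k`. -/
def NoProEllSection (ℓ : ℕ) (a : k) (f : k[X]) : Prop :=
  ∀ (F Ω : Type) [Field F] [Field Ω] [Algebra k F] [Algebra F Ω] [Algebra k Ω]
    [IsScalarTower k F Ω] [IsAlgClosure F Ω] (x y : F), Transcendental k x →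
    algebraMap k F a * y ^ ℓ = aeval x f →
    IntermediateField.adjoin k {x, y} = (⊤ : IntermediateField k F) →
    ∀ N : IntermediateField F Ω, proEllField ℓ k F Ω ≤ N → NoSplitting k F Ω N

/-- Some element of the Galois group of `k` fixes no root of `f`. -/
def HasDerangement (f : k[X]) : Prop :=
  ∃ σ : AlgebraicClosure k ≃ₐ[k] AlgebraicClosure k,
    ∀ θ : AlgebraicClosure k, aeval θ f = 0 → σ θ ≠ θ

end curves

/-- The value `q(θ)` of a polynomial `q ∈ k[t]` at an element `θ` of an extension `L` of `k`. -/
noncomputable def value {k L : Type} [Field k] [Field L] [Algebra k L] (θ : L) : k[X] →+* L :=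
  eval₂RingHom (algebraMap k L) θ

/-- The polynomial `F(θ, x) ∈ L[x]` has the same degree as `F ∈ k[t][x]`, is separable, and is
irreducible over `L` or has a Galois group over `L` with an element that fixes no root. -/
structure RamifiedAt {k L : Type} [Field k] [Field L] [Algebra k L] (F : k[X][X]) (θ : L) : Prop where
  degree : value θ F.leadingCoeff ≠ 0
  separable : (F.map (value θ)).Separable
  moves : Irreducible (F.map (value θ)) ∨ HasDerangement (F.map (value θ))

/-- The multiplicity of the root `θ ∈ L` of `g ∈ k[t]`. -/
noncomputable def mult {k L : Type} [Field k] [Field L] [Algebra k L] (g : k[X]) (θ : L) : ℕ :=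
  (g.map (algebraMap k L)).rootMultiplicity θ

/-- The polynomial `F(t, x) ∈ k[x]`. -/
noncomputable def fibre {k : Type} [Field k] (F : k[X][X]) (t : k) : k[X] := F.map (evalRingHom t)

/-- Some prime number divides `n` and `m` but not `e`. -/
def Admissible (n m e : ℕ) : Prop := ∃ ℓ : ℕ, ℓ.Prime ∧ ℓ ∣ n ∧ ℓ ∣ m ∧ ¬ ℓ ∣ e

/-- The numbers `t ∈ ℕ` which do not have the following property: `F(t, x)` has the same degree `m` as
`F`; for all `n ≥ 1` such that some prime number divides `n` and `m` but not `e` the curve
`g(t) yⁿ = F(t, x)` over `k` has neither points nor sections; and for all prime numbers `ℓ` which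
divide `m` but not `e` the geometrically pro-`ℓ` fundamental group of the curve `g(t) y^ℓ = F(t, x)`
has no section. -/
def Exceptional {k : Type} [Field k] (g : k[X]) (F : k[X][X]) (e : ℕ) : Set ℕ :=
  {t | ¬ ((fibre F (t : k)).natDegree = F.natDegree ∧
    (∀ n : ℕ, 0 < n → Admissible n F.natDegree e →
      NoPoint n (g.eval (t : k)) (fibre F t) ∧ NoSection n (g.eval (t : k)) (fibre F t)) ∧
    ∀ ℓ : ℕ, ℓ.Prime → ℓ ∣ F.natDegree → ¬ ℓ ∣ e →
      NoProEllSection ℓ (g.eval (t : k)) (fibre F t))}

/-- 100% of the prime numbers are not in `E`: the proportion of the elements of `E` among the prime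
numbers up to `X` tends to `0` for `X → ∞`. -/
def FewPrimes (E : Set ℕ) : Prop :=
  Tendsto (fun X : ℕ => ({p | p ≤ X ∧ p.Prime ∧ p ∈ E}.ncard : ℝ) / Nat.primeCounting X) atTop (𝓝 0)

lemma iSup_congr_prop {α : Type} [CompleteLattice α] {P Q : α → Prop} (h : ∀ L, P L ↔ Q L) :
    (⨆ L : {L // P L}, L.1) = ⨆ L : {L // Q L}, L.1 := by
  have h1 : P = Q := funext fun L => propext (h L)
  subst h1
  rfl

lemma proEll_eq (ℓ : ℕ) (k F Ω : Type) [Field k] [Field F] [Field Ω] [Algebra k F] [Algebra F Ω]
    [Algebra k Ω] : proEllField ℓ k F Ω = Pool.Agent.Y157.PS.geomPro ℓ k F Ω := by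
  unfold proEllField Pool.Agent.Y157.PS.geomPro maxProEll Pool.Agent.Y157.PS.maxPro
  congr 1
  refine iSup_congr_prop fun L => ?_
  constructor
  · rintro ⟨⟨h1, h2, h3⟩, h4⟩
    refine ⟨⟨h1, h2, h3⟩, fun W hW z hz hz0 => ?_⟩
    obtain ⟨t, ht, h5, h6⟩ := h4 W hW z hz hz0
    exact ⟨t, ht, div_ne_zero hz0 ((_root_.map_ne_zero _).2 ht), h5, h6⟩
  · rintro ⟨⟨h1, h2, h3⟩, h4⟩
    refine ⟨⟨h1, h2, h3⟩, fun W hW z hz hz0 => ?_⟩
    obtain ⟨t, ht, -, h5, h6⟩ := h4 W hW z hz hz0
    exact ⟨t, ht, h5, h6⟩

lemma of_fine {k : Type} [Field k] (l : ℕ) (a : k) (f : k[X])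
    (h : Pool.Agent.Y157.PS.FineP l a f) (n : ℕ) (hn : l ∣ n) (hd : l ∣ f.natDegree) :
    NoPoint n a f ∧ NoSection n a f := by
  obtain ⟨-, h1, h2, h3⟩ := h
  obtain ⟨n', rfl⟩ := hn
  refine ⟨⟨?_, ?_⟩, ?_⟩
  · rintro ⟨x, y, hxy⟩
    apply h2 x (y ^ n')
    rw [← hxy, ← pow_mul, mul_comm n' l]
  · rintro ⟨r, hr⟩
    obtain ⟨e, he⟩ := Nat.dvd_gcd (Dvd.intro n' rfl : l ∣ l * n') hd
    apply h3 (r ^ e)
    rw [← hr, ← pow_mul, mul_comm e l, he]
  · intro F Ω _ _ _ _ _ _ _ x y U hxy hU
    have hcl : IsAlgClosed Ω := IsAlgClosure.isAlgClosed F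
    have halg : Algebra.IsAlgebraic F Ω := IsAlgClosure.isAlgebraic
    have h4 := h1 F Ω U hU x (y ^ n') (by rw [← hxy, ← pow_mul, mul_comm n' l])
    exact ⟨fun s => h4.false ⟨s.toHom, s.cont, s.compat⟩⟩

/-- Let `R` be a domain of characteristic zero that is finitely generated as a ring, with fraction
field `k`; so `k` is a number field or any field finitely generated over `ℚ`.  Let `g ∈ k[t]`, `g ≠ 0`,
let `F ∈ k[t][x]` be of degree `m ≥ 3` in `x`, and let `θ ≠ 0` in a finite extension `L` of `k` be as in
the definition `RamifiedAt`, a root of `g` of multiplicity `e`.  Then for 100% of the prime numbers `p`: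
the polynomial `F(p, x)` has degree `m`; for all `n ≥ 1` such that some prime number divides `n` and `m`
but not `e`, the smooth projective curve with the affine equation `g(p) yⁿ = F(p, x)` has no point over
`k`, and the fundamental groups of its open subcurves and of all smooth curves over `k` that dominate
it have no sections; and for all prime numbers `ℓ` that divide `m` but not `e` the geometrically
pro-`ℓ` fundamental group of `g(p) y^ℓ = F(p, x)` has no section. -/
theorem result (R : Type) [CommRing R] [IsDomain R] [CharZero R] [Algebra.FiniteType ℤ R]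
    (k : Type) [Field k] [Algebra R k] [IsFractionRing R k] (g : k[X]) (hg : g ≠ 0) (F : k[X][X])
    (h3 : 3 ≤ F.natDegree) (L : Type) [Field L] [Algebra k L] [FiniteDimensional k L] (θ : L)
    (hθ : θ ≠ 0) (h : RamifiedAt F θ) : FewPrimes (Exceptional g F (mult g θ)) := by
  classical
  have hcz : CharZero k := charZero_of_injective_algebraMap (IsFractionRing.injective R k)
  have hczL : CharZero L := charZero_of_injective_algebraMap (algebraMap k L).injective
  have hdeg : (F.map (value θ)).natDegree = F.natDegree :=
    natDegree_map_of_leadingCoeff_ne_zero _ h.degree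
  have hσ : HasDerangement (F.map (value θ)) := by
    rcases h.moves with h1 | h1
    · exact Pool.Agent.W52.SecC.D3.partD3 L _ h1 (by omega)
    · exact h1
  obtain ⟨S, hSp, hSd, hS⟩ := Pool.Agent.V11235.SD.core (R := R) g F h3 θ hg h.degree
    h.separable hσ hθ
  have hS' : ∀ p : ℕ, ∃ Θ : ZMod (p ^ 2), p ∈ S → IsUnit Θ ∧ ∀ t : ℕ,
      Pool.Agent.V11235.SD.Good p Θ (t : ZMod (p ^ 2)) 1 → t ∉ Exceptional g F (mult g θ) := by
    intro p
    by_cases hp : p ∈ S
    · obtain ⟨χ, Θ, hΘ, hgood⟩ := hS p hp
      refine ⟨Θ, fun _ => ⟨hΘ, fun t ht hE => ?_⟩⟩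
      obtain ⟨hd, hfine⟩ := hgood (t : R) 1 (by
        rw [map_natCast, map_one]
        exact ht)
      rw [map_natCast, map_one, div_one] at hd hfine
      apply hE
      refine ⟨hd, fun n hn hadm => ?_, fun ℓ hℓ hℓd hℓe => ?_⟩
      · obtain ⟨l, hl, hln, hld, hle⟩ := hadm
        exact of_fine l _ _ (hfine l hl hld hle) n hln (by
          change l ∣ (F.map (evalRingHom (t : k))).natDegree
          rw [hd]
          exact hld)
      · intro F' Ω _ _ _ _ _ _ _ x y hx hxy hF N hN
        have hcl : IsAlgClosed Ω := IsAlgClosure.isAlgClosed F'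
        have halg : Algebra.IsAlgebraic F' Ω := IsAlgClosure.isAlgebraic
        rw [proEll_eq] at hN
        exact ⟨fun s => (hfine ℓ hℓ hℓd hℓe).1 F' Ω x y hx hxy hF N hN s.toHom s.cont s.compat⟩
    · exact ⟨0, fun h => absurd h hp⟩
  choose Θ hΘ using hS'
  have hmain := Pool.Agent.V11235.SD.primes_density S hSp hSd Θ (fun p hp => (hΘ p hp).1)
    (Exceptional g F (mult g θ)) (fun t ht p hp hgood => (hΘ p hp).2 t hgood ht)
  refine tendsto_order.2 ⟨fun a ha => ?_, fun a ha => ?_⟩
  · filter_upwards with X
    exact ha.trans_le (by positivity)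
  · filter_upwards [hmain (a / 2) (by linarith), eventually_ge_atTop 2] with X hX hX2
    have hpi : (0 : ℝ) < Nat.primeCounting X := by
      have h1 : 0 < Nat.primeCounting X := Nat.pos_of_ne_zero (by
        rw [Ne, Nat.primeCounting_eq_zero_iff]
        omega)
      exact_mod_cast h1
    rw [div_lt_iff₀ hpi]
    nlinarith

end Pool.Agent.Results.MP_2f3286_ag.PrimeFibres
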