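import Pool.Agent.Results.MP_c1dca2_ag.FamiliesOverExtensions
import Pool.Agent.Results.MP_2f3286_ag.SectionsOverExtensions
import Pool.Agent.H107.HypNear

/-!
# Sections of fundamental groups in all members of a family close to almost every point

`E : y² = x³ + a x + b` is an elliptic curve over a number field `K` whose Tate-Shafarevich group over `K` is killed by
some `M₀ ≥ 1`, and `X` is a closed subset of `E ^ r × ℙ ^ n` over `K`, a family of closed subsets `X_y ⊆ E ^ r` with
parameter space `ℙ ^ n`. A point `y` in `ℙ ^ n (K)` is good if for ALL extensions `F` of `K` of degree at most `M`, no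
smooth curve `C` over `F` with a map to `X_y` has a section of the map from `π₁(C)` to the absolute Galois group of `F`
which is given over `F_w` by a point (or a cusp) of `C` for all finite places `w` of `F`.

Suppose that for all `1 ≤ m ≤ M` and all complex points `S` of `E ^ r` the `y` such that `S` is a sum of `m` points of `X_y`
lie on a hypersurface of degree `k`. Let `τ` be an embedding of `K` in `𝕜 = ℝ` or `ℂ`. There is a subset of `𝕜 ^ n` of
Hausdorff dimension at most `n - 1` (at most `2 (n - 1)` for `𝕜 = ℂ`), so of measure zero, such that for all `z` outside of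
it and all `w > 0` (arbitrarily small) ALL the points `y = (y_1, ..., y_n)` in `K ^ n` of sufficiently large height with
`‖τ(y) - z‖ ≤ H(y) ^ (-w)` are good.

The input are the `O(B ^ ε)` hypersurfaces which contain the exceptional points of height at most `B` (starting result
`MP_2f3286_ag.SectionsOverExtensions`) and the covering theorem for zero sets of polynomials of helper264.
-/

set_option autoImplicit false

namespace Pool.Agent.Results.MP_2f3286_ag.SectionsNearPoints

open MvPolynomial NumberField IsDedekindDomain Pool.Agent.TH954 Pool.Agent.W620.SC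
open Pool.Agent.Results.MP_c1dca2_ag.FamiliesOverExtensions (curve coords MultiHomog IsSum MemberOver)

open scoped LinearAlgebra.Projectivization ENNReal

/-- Over all extensions `F` of `K` of degree at most `M`: no curve `C` over `F` (with function field `L`, closed points the
valuation rings in `U`) with a map `P` to the member `X_y` has a section `s` which is given by points at all finite
places. The field `N` is any extension of `L` in the algebraic closure `Ω` of `L` which contains the maximal extension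
unramified over the points of `C`. -/
def NoLocalSections {K : Type} [Field K] [NumberField K] (a b : 𝓞 K) {r n q : ℕ}
    (G : Fin q → MvPolynomial ((Fin r × Fin 3) ⊕ Fin (n + 1)) (𝓞 K)) (M : ℕ) (y : ℙ K (Fin (n + 1) → K)) : Prop :=
  ∀ (F : Type) [Field F] [NumberField F] [Algebra K F] (_ : Module.finrank K F ≤ M)
    (L Ω N A : Type) [Field L] [Field Ω] [Field N] [Field A] [Algebra F L] [Algebra L Ω]
    [Algebra F Ω] [Algebra L N] [Algebra F N] [Algebra F A] [IsScalarTower F L Ω]
    [IsScalarTower F L N] [IsAlgClosure L Ω] [IsAlgClosure F A]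
    (U : Set (ValuationSubring L)) (_ : ∀ O ∈ U, ∀ c : F, algebraMap F L c ∈ O)
    (e : N →ₐ[L] Ω) (_ : unramified L Ω U ≤ e.fieldRange)
    (P : Fin r → ((curve (algebraMap K F a) (algebraMap K F b)).baseChange L).toAffine.Point)
    (_ : OnX (MemberOver G F y) (fun i => crd (P i))) (s : GalSection F L N A),
    ¬ ∀ w : HeightOneSpectrum (𝓞 F),
      ∃ p : Plc F N (AlgebraicClosure (w.adicCompletion F)), s.GivenBy (w.adicCompletion F) p

/-- **Theorem.** For every embedding `τ` of `K` in `𝕜` (`ℝ` or `ℂ`) there is a subset `E` of `𝕜 ^ n` of dimension at most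
`[𝕜 : ℝ] (n - 1)` such that for all `z` outside of `E` and all `w > 0` all the points `y = (1 : y_1 : ... : y_n)` of
sufficiently large height with `‖τ(y) - z‖ ≤ H(y) ^ (-w)` have the property `NoLocalSections`. -/
theorem result (K : Type) [Field K] [NumberField K] (a b : 𝓞 K)
    (hE : 4 * a ^ 3 + 27 * b ^ 2 ≠ 0) (M₀ : ℕ) (hM1 : 1 ≤ M₀)
    (hM : ShaKilledBy (curve (a : K) (b : K)) M₀) (r n q : ℕ)
    (G : Fin q → MvPolynomial ((Fin r × Fin 3) ⊕ Fin (n + 1)) (𝓞 K))
    (d : Fin q → Fin r → ℕ) (deg : Fin q → ℕ) (hG : ∀ e, MultiHomog (G e) (d e) (deg e))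
    (σ : K →+* ℂ) (M k : ℕ) (hk : 1 ≤ k)
    (hX : ∀ m, 1 ≤ m → m ≤ M → ∀ S : Fin r → (curve (σ a) (σ b)).toAffine.Point,
      ∃ g : MvPolynomial (Fin (n + 1)) ℂ, g ≠ 0 ∧ g.IsHomogeneous k ∧
        ∀ y : ℙ ℂ (Fin (n + 1) → ℂ), IsSum σ a b G m S y.rep → eval y.rep g = 0)
    (𝕜 : Type) [RCLike 𝕜] (τ : K →+* 𝕜) :
    ∃ E : Set (Fin n → 𝕜), dimH E ≤ ((Module.finrank ℝ 𝕜 * (n - 1) : ℕ) : ℝ≥0∞) ∧ ∀ z ∉ E, ∀ w : ℝ, 0 < w →
      ∃ T₀ : ℝ, ∀ y : Fin n → K, T₀ ≤ (Pool.Agent.H107.Hyp.pt y).mulHeight →
        ‖(fun i => τ (y i)) - z‖ ≤ (Pool.Agent.H107.Hyp.pt y).mulHeight ^ (-w) →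
        NoLocalSections a b G M (Pool.Agent.H107.Hyp.pt y) := by
  obtain ⟨E, h1, h2⟩ := Pool.Agent.H107.Hyp.near_hyp τ n k (J := Unit) (fun _ => {y | ¬ NoLocalSections a b G M y})
    (fun _ ε hε => by
    obtain ⟨C, hC⟩ := Pool.Agent.Results.MP_2f3286_ag.SectionsOverExtensions.result K a b hE M₀ hM1 hM r n q G d deg hG
      σ M k hk hX ε hε
    refine ⟨C, fun B hB => ?_⟩
    obtain ⟨FF, g1, g2, g3⟩ := hC B hB
    refine ⟨FF, g1, g2, fun y hy hyB => ?_⟩
    by_contra hcon
    apply hy
    intro F _ _ _ hF L Ω N A _ _ _ _ _ _ _ _ _ _ _ _ _ _ U hU e he P hP s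
    exact g3 y hyB (fun f hf h0 => hcon ⟨f, hf, h0⟩) F hF L Ω N A U hU e he P hP s)
  refine ⟨E, h1, fun z hz w hw => ?_⟩
  obtain ⟨T₀, hT⟩ := h2 z hz () w hw
  refine ⟨T₀, fun y hy hyz => ?_⟩
  by_contra hcon
  exact hT y hy hyz hcon

end Pool.Agent.Results.MP_2f3286_ag.SectionsNearPoints
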